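import Mathlib
import Pool.Prelude.Def_F_c31e40fa
import Pool.Agent.Helper32.LD.Area2

set_option autoImplicit false

/-!
# Infinitely renormalizable parameters with fast decay of areas: a gauge function

For a parameter `c` of the Mandelbrot set let `rate c` be the escape rate (the Green function) of
`z ^ 2 + c`. For almost every `c` the area of `{rate c ≤ s}` is larger than
`exp (-(log (1 / s)) ^ β)` for all small `s`, for every `β > 1 / 2`. Here the exceptional set is shown
to be null for the Hausdorff measures with the gauge functions `t ^ 2 * exp ((log (1 / t)) ^ δ)`,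
`0 ≤ δ < 2 - 1 / β`, also when the areas are only small near some point of the filled Julia set.
-/

open Filter Topology MeasureTheory Set Metric N62a1eb23
open scoped ENNReal

namespace Pool.Agent.Results.MP_b511e9_an.GaugeNullDecay

/-- The map `z ↦ z ^ 2 + c`. -/
def f (c : ℂ) : ℂ → ℂ := fun z => z ^ 2 + c

/-- The escape rate, the limit of `log⁺ ‖f^n (z)‖ / 2 ^ n`. -/
noncomputable def rate (c z : ℂ) : ℝ :=
  limsup (fun n : ℕ => Real.posLog ‖(f c)^[n] z‖ / 2 ^ n) atTop

/-- The filled Julia set: the points with bounded orbit. -/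
def filled (c : ℂ) : Set ℂ := {z | ∃ B : ℝ, ∀ n : ℕ, ‖(f c)^[n] z‖ ≤ B}

/-- A necessary condition for `z ↦ z ^ 2 + c` to be renormalizable of period `p`. -/
def Ren (c : ℂ) (p : ℕ) : Prop :=
  2 ≤ p ∧ ∃ U : Set ℂ, IsOpen U ∧ Bornology.IsBounded U ∧ (0 : ℂ) ∈ U ∧
    (∀ n : ℕ, 1 ≤ n → (f c)^[n * p] 0 ∈ U) ∧
    closure U ⊆ (f c)^[p] '' U ∧
    ∀ z ∈ closure U, deriv ((f c)^[p]) z = 0 → z = 0

/-- The infinitely renormalizable parameters. -/
def IR : Set ℂ := {c | {p : ℕ | Ren c p}.Infinite}

/-- There is an open set `O` which meets the filled Julia set, such that for arbitrarily small `s` the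
area of the set of the points of `O` with escape rate at most `s` is at most
`exp (-(log (1 / s)) ^ β)`. -/
def Decays (β : ℝ) (c : ℂ) : Prop :=
  ∃ O : Set ℂ, IsOpen O ∧ (O ∩ filled c).Nonempty ∧
    ∃ᶠ s in 𝓝[>] (0 : ℝ), volume (O ∩ {z : ℂ | rate c z ≤ s}) ≤
      ENNReal.ofReal (Real.exp (-(Real.log (1 / s)) ^ β))

/-- The gauge function `t ^ 2 * exp ((log (1 / t)) ^ δ)`. -/
noncomputable def gauge (δ : ℝ) (t : ℝ≥0∞) : ℝ≥0∞ :=
  ENNReal.ofReal (t.toReal ^ 2 * Real.exp ((Real.log (1 / t.toReal)) ^ δ))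

/-- Let `1 / 2 < β ≤ 1` and `0 ≤ δ < 2 - 1 / β`. The infinitely renormalizable parameters `c` such
that, near some point of the filled Julia set and for arbitrarily small `s`, the area of
`{rate c ≤ s}` is at most `exp (-(log (1 / s)) ^ β)` form a null set for the Hausdorff measure with
the gauge function `t ^ 2 * exp ((log (1 / t)) ^ δ)`. -/
theorem result (β δ : ℝ) (hβ : 1 / 2 < β) (hβ1 : β ≤ 1) (hδ0 : 0 ≤ δ) (hδ : δ < 2 - 1 / β) :
    Measure.mkMetric (gauge δ) {c ∈ IR | Decays β c} = 0 := by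
  have hβ0 : 0 < β := by linarith
  have h1 : β * δ < 2 * β - 1 := by
    have h2 := mul_lt_mul_of_pos_left hδ hβ0
    have h3 : β * (2 - 1 / β) = 2 * β - 1 := by
      field_simp
    linarith
  refine measure_mono_null ?_ (Pool.Agent.Helper32.LD.null_area (d := 2) le_rfl hβ hβ1 hδ0 h1)
  rintro c ⟨hc, hO⟩
  refine ⟨?_, ?_⟩
  · obtain ⟨p, hp2, U, _, hUb, _, hU, _, _⟩ := hc.nonempty
    intro ht
    have h1 : Tendsto (fun n : ℕ => (n + 1) * p) atTop atTop := by
      refine tendsto_atTop_mono (fun n => ?_) (tendsto_id (α := ℕ))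
      show n ≤ (n + 1) * p
      nlinarith
    have h2 := ht.comp h1
    have h3 : ∀ᶠ z in Bornology.cobounded ℂ, z ∉ U := hUb
    obtain ⟨n, hn⟩ := (h2.eventually h3).exists
    exact hn (hU (n + 1) (by omega))
  · have h1 : ∀ z : ℂ, rate c z = Pool.Agent.H713R2.AR.green 2 c z := by
      intro z
      unfold rate Pool.Agent.H713R2.AR.green f
      norm_num
    have h2 : filled c = Pool.Agent.Helper32.RA.Kf 2 c := rfl
    unfold Decays at hO
    simp only [h1, h2] at hO
    exact hO

end Pool.Agent.Results.MP_b511e9_an.GaugeNullDecay
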