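import Mathlib
import Pool.Prelude.Def_F_c31e40fa
import Pool.Agent.Helper32.LD.Asy2

set_option autoImplicit false

/-!
# Infinitely renormalizable parameters at which the critical orbit grows fast: coverings

For almost every parameter `c` of the Mandelbrot set the derivative at `c` of the parameter map
`a ↦ f_a^n (0)` is eventually smaller than `exp (n ^ β)`, for every `β > 1 / 2`. Here the size of the
exceptional set at a fixed time `n` is estimated: the infinitely renormalizable parameters that are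
exceptional at time `n` can be covered by at most `exp (2 n ^ β - n ^ γ)` discs of radius
`2 exp (-n ^ β)`, for every `γ < 2 β - 1` and all large `n`.
-/

open Filter Topology MeasureTheory Set Metric N62a1eb23

namespace Pool.Agent.Results.MP_b511e9_an.GrowthCovering

open Pool.Agent.TH279.DG Pool.Agent.H637R4.PO

/-- The map `z ↦ z ^ 2 + c`. -/
def f (c : ℂ) : ℂ → ℂ := fun z => z ^ 2 + c

/-- A necessary condition for `z ↦ z ^ 2 + c` to be renormalizable of period `p`. -/
def Ren (c : ℂ) (p : ℕ) : Prop :=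
  2 ≤ p ∧ ∃ U : Set ℂ, IsOpen U ∧ Bornology.IsBounded U ∧ (0 : ℂ) ∈ U ∧
    (∀ n : ℕ, 1 ≤ n → (f c)^[n * p] 0 ∈ U) ∧
    closure U ⊆ (f c)^[p] '' U ∧
    ∀ z ∈ closure U, deriv ((f c)^[p]) z = 0 → z = 0

/-- The infinitely renormalizable parameters. -/
def IR : Set ℂ := {c | {p : ℕ | Ren c p}.Infinite}

theorem mem_of_IR {c : ℂ} (hc : c ∈ IR) : c ∈ multibrotSet 2 := by
  obtain ⟨p, hp2, U, _, hUb, _, hU, _, _⟩ := hc.nonempty
  intro ht
  have h1 : Tendsto (fun n : ℕ => (n + 1) * p) atTop atTop := by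
    refine tendsto_atTop_mono (fun n => ?_) (tendsto_id (α := ℕ))
    show n ≤ (n + 1) * p
    nlinarith
  have h2 := ht.comp h1
  have h3 : ∀ᶠ z in Bornology.cobounded ℂ, z ∉ U := hUb
  obtain ⟨n, hn⟩ := (h2.eventually h3).exists
  exact hn (hU (n + 1) (by omega))

/-- Let `1 / 2 < β ≤ 1` and `γ < 2 β - 1`. For all large `n`, the infinitely renormalizable parameters
`c` such that the derivative at `c` of `a ↦ f_a^n (0)` is larger than `6 exp (n ^ β)`, or some
parameter `a` at distance less than `exp (-n ^ β)` from `c` escapes from the disc of radius `6` in at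
most `n` steps, can be covered by at most `exp (2 n ^ β - n ^ γ)` discs of radius
`2 exp (-n ^ β)`. -/
theorem result (β γ : ℝ) (hβ : 1 / 2 < β) (hβ1 : β ≤ 1) (hγ : γ < 2 * β - 1) :
    ∀ᶠ n : ℕ in atTop, ∃ T : Finset ℂ,
      (T.card : ℝ) ≤ Real.exp (2 * (n : ℝ) ^ β - (n : ℝ) ^ γ) ∧
      {c ∈ IR | 6 * Real.exp ((n : ℝ) ^ β) < ‖deriv (fun a : ℂ => (f a)^[n] 0) c‖ ∨
        ∃ a : ℂ, ‖a - c‖ < Real.exp (-(n : ℝ) ^ β) ∧ ∃ k ≤ n, 6 < ‖(f a)^[k] 0‖} ⊆
      ⋃ x ∈ T, closedBall x (2 * Real.exp (-(n : ℝ) ^ β)) := by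
  filter_upwards [Pool.Agent.Helper32.LD.cover_growth (d := 2) le_rfl hβ hβ1 hγ] with n hn
  obtain ⟨T, hT, h⟩ := hn
  refine ⟨T, hT, ?_⟩
  rintro c ⟨hc, h1⟩
  by_contra hcon
  simp only [mem_iUnion, mem_closedBall, not_exists, not_le] at hcon
  have h2 := h c (mem_of_IR hc) hcon
  rcases h1 with h1 | ⟨a, ha, k, hk, h1⟩
  · have h3 := deriv_le (d := 2) (c := c) (n := n) (Real.exp_pos (-(n : ℝ) ^ β))
      (fun c' hc' => h2 c' hc' n le_rfl)
    rw [Real.exp_neg, div_inv_eq_mul] at h3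
    exact absurd h1 (not_lt.2 h3)
  · refine absurd h1 (not_lt.2 (h2 a ?_ k hk))
    rw [mem_ball, dist_eq_norm]
    exact ha

end Pool.Agent.Results.MP_b511e9_an.GrowthCovering
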