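import Mathlib
import Pool.Prelude.Def_F_c31e40fa
import Pool.Agent.Helper32.RA.Bounds

set_option autoImplicit false

/-!
# Renormalizable maps with bounds: areas near the points of the filled Julia set

Let `c` be renormalizable of period `p` and let the renormalization have bounds `C`. We show that, near
every point of the filled Julia set, the area of the set of the points with escape rate at most `s` is
larger than `s ^ α` for all small `s`, for every `α > log (C + 3) / (p log 2)`.
-/

open Filter Topology Set Metric MeasureTheory Complex N62a1eb23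

namespace Pool.Agent.Results.MP_b511e9_an.SubexponentialBounds

/-- The map `z ↦ z ^ 2 + c`. -/
def f (c : ℂ) : ℂ → ℂ := fun z => z ^ 2 + c

/-- The escape rate, the limit of `log⁺ ‖f^n (z)‖ / 2 ^ n`. -/
noncomputable def rate (c z : ℂ) : ℝ :=
  limsup (fun n : ℕ => Real.posLog ‖(f c)^[n] z‖ / 2 ^ n) atTop

/-- The filled Julia set: the points with bounded orbit. -/
def filled (c : ℂ) : Set ℂ := {z | ∃ B : ℝ, ∀ n : ℕ, ‖(f c)^[n] z‖ ≤ B}

/-- There is an open set `O` which meets the filled Julia set, such that for arbitrarily small `s` the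
area of the set of the points of `O` with escape rate at most `s` is at most `s ^ α`. -/
def Decays (α : ℝ) (c : ℂ) : Prop :=
  ∃ O : Set ℂ, IsOpen O ∧ (O ∩ filled c).Nonempty ∧
    ∃ᶠ s in 𝓝[>] (0 : ℝ), volume (O ∩ {z : ℂ | rate c z ≤ s}) ≤ ENNReal.ofReal (s ^ α)

/-- `g` is proper of degree at most two from the bounded open set `U` onto a set which contains the
closure of `U`. Quadratic-like maps have this property. -/
def PolynomialLike (g : ℂ → ℂ) (U : Set ℂ) : Prop :=
  IsOpen U ∧ Bornology.IsBounded U ∧ closure U ⊆ g '' U ∧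
    (∀ K ⊆ g '' U, IsCompact K → IsCompact {z | z ∈ U ∧ g z ∈ K}) ∧
    ∀ w ∈ g '' U, {z | z ∈ U ∧ g z = w}.encard ≤ 2

/-- `z ↦ z ^ 2 + c` is renormalizable of period `p` with bounds `C`: `U` contains the discs of some
radius `r` about the points `f^[n p] 0`, and its image has diameter at most `C r`. Under a priori
bounds one has `Bounds C c p` for a fixed `C` and infinitely many `p`. -/
def Bounds (C : ℝ) (c : ℂ) (p : ℕ) : Prop :=
  ∃ (U : Set ℂ) (r : ℝ), PolynomialLike ((f c)^[p]) U ∧ 0 < r ∧
    (∀ n : ℕ, ball ((f c)^[n * p] 0) r ⊆ U) ∧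
    ∀ z ∈ U, ∀ z' ∈ U, ‖(f c)^[p] z - (f c)^[p] z'‖ ≤ C * r

theorem decays_iff {α : ℝ} {c : ℂ} : Decays α c ↔ Pool.Agent.Helper32.RA.Dec 2 α c := by
  have h1 : ∀ z : ℂ, rate c z = Pool.Agent.H713R2.AR.green 2 c z := by
    intro z
    unfold rate Pool.Agent.H713R2.AR.green f
    norm_num
  have h2 : filled c = Pool.Agent.Helper32.RA.Kf 2 c := rfl
  unfold Decays Pool.Agent.Helper32.RA.Dec
  simp only [h1, h2]

/-- Let `c` have bounds `C` for the period `p ≥ 1` and let `α > log (C + 3) / (p log 2)`. Then there is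
no open set `O` which meets the filled Julia set such that, for arbitrarily small `s`, the area of the
set of the points of `O` with escape rate at most `s` is at most `s ^ α`. -/
theorem result (c : ℂ) (p : ℕ) (C : ℝ) (hp : 1 ≤ p) (hC : 0 ≤ C) (hB : Bounds C c p) (α : ℝ)
    (hα : Real.log (C + 3) / (p * Real.log 2) < α) : ¬ Decays α c := by
  have hren : c ∈ multibrotSet 2 := by
    obtain ⟨U, r, hU, hr, hball, _⟩ := id hB
    refine Pool.Agent.Y736.RN.ren_mem (d := 2) hp ⟨U, hU, ?_, fun n _ => hball n (mem_ball_self hr)⟩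
    have h1 := hball 0 (mem_ball_self hr)
    simpa using h1
  intro hD
  obtain ⟨U, r, _, hr, hball, hdiam⟩ := id hB
  exact Pool.Agent.Helper32.RA.not_dec_of_bounds le_rfl hren hp hC hr hball hdiam
    (by push_cast; exact hα) (decays_iff.1 hD)

end Pool.Agent.Results.MP_b511e9_an.SubexponentialBounds
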