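import Mathlib
import Pool.Prelude.Def_F_c31e40fa
import Pool.Agent.Helper32.RA.Decide

set_option autoImplicit false

/-!
# Escape rates of infinitely renormalizable maps: areas decay slower than every power

For a parameter `c` of the Mandelbrot set let `rate c` be the escape rate (the Green function) of
`z ^ 2 + c`. We show that, near every point of the filled Julia set, the area of the set of the points
with escape rate at most `s` is larger than every positive power of `s`, for all small `s`,

for all infinitely renormalizable parameters `c` outside a set of Hausdorff dimension zero.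
For one period `p` of renormalization, decay of order `s ^ α`, somewhere and along some sequence, is
possible only in a set of parameters of Hausdorff dimension at most `1 / (p α)`.
-/

open Filter Topology Set Metric MeasureTheory Complex N62a1eb23

namespace Pool.Agent.Results.MP_b511e9_an.SubpowerAreas

/-- The map `z ↦ z ^ 2 + c`. -/
def f (c : ℂ) : ℂ → ℂ := fun z => z ^ 2 + c

/-- The escape rate, the limit of `log⁺ ‖f^n (z)‖ / 2 ^ n`. -/
noncomputable def rate (c z : ℂ) : ℝ :=
  limsup (fun n : ℕ => Real.posLog ‖(f c)^[n] z‖ / 2 ^ n) atTop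

/-- The filled Julia set: the points with bounded orbit. -/
def filled (c : ℂ) : Set ℂ := {z | ∃ B : ℝ, ∀ n : ℕ, ‖(f c)^[n] z‖ ≤ B}

/-- There is an open set `O` which meets the filled Julia set, such that for arbitrarily small `s` the
area of the set of the points of `O` with escape rate at most `s` is at most `s ^ α`. -/
def Decays (α : ℝ) (c : ℂ) : Prop :=
  ∃ O : Set ℂ, IsOpen O ∧ (O ∩ filled c).Nonempty ∧
    ∃ᶠ s in 𝓝[>] (0 : ℝ), volume (O ∩ {z : ℂ | rate c z ≤ s}) ≤ ENNReal.ofReal (s ^ α)

/-- `g` is proper of degree at most two from the bounded open set `U` onto a set which contains the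
closure of `U`. Quadratic-like maps have this property. -/
def PolynomialLike (g : ℂ → ℂ) (U : Set ℂ) : Prop :=
  IsOpen U ∧ Bornology.IsBounded U ∧ closure U ⊆ g '' U ∧
    (∀ K ⊆ g '' U, IsCompact K → IsCompact {z | z ∈ U ∧ g z ∈ K}) ∧
    ∀ w ∈ g '' U, {z | z ∈ U ∧ g z = w}.encard ≤ 2

/-- `z ↦ z ^ 2 + c` is renormalizable of period `p`. -/
def Renormalizable (c : ℂ) (p : ℕ) : Prop :=
  ∃ U : Set ℂ, PolynomialLike ((f c)^[p]) U ∧ (0 : ℂ) ∈ U ∧
    ∀ n : ℕ, 1 ≤ n → (f c)^[n * p] 0 ∈ U

/-- The infinitely renormalizable parameters. -/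
def IR : Set ℂ := {c | {p : ℕ | Renormalizable c p}.Infinite}

theorem decays_iff {α : ℝ} {c : ℂ} : Decays α c ↔ Pool.Agent.Helper32.RA.Dec 2 α c := by
  have h1 : ∀ z : ℂ, rate c z = Pool.Agent.H713R2.AR.green 2 c z := by
    intro z
    unfold rate Pool.Agent.H713R2.AR.green f
    norm_num
  have h2 : filled c = Pool.Agent.Helper32.RA.Kf 2 c := rfl
  unfold Decays Pool.Agent.Helper32.RA.Dec
  simp only [h1, h2]

/-- Let `c` be a parameter of the Mandelbrot set. The areas of the sublevel sets of the escape rate of
`z ^ 2 + c` decay slower than `s ^ α`, near every point of the filled Julia set, outside a set of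
dimension at most `1 / (p α)`, for renormalizable parameters of period `p`. In particular, they decay
slower than every power outside a set of dimension zero, for infinitely renormalizable parameters. -/
theorem result :
    (∀ (p : ℕ) (α : ℝ), 1 ≤ p → 0 < α →
      dimH {c : ℂ | Renormalizable c p ∧ Decays α c} ≤ ENNReal.ofReal (1 / (p * α))) ∧
    dimH {c ∈ IR | ∃ α : ℝ, 0 < α ∧ Decays α c} = 0 := by
  constructor
  · intro p α hp hα
    refine (dimH_mono ?_).trans (Pool.Agent.Helper32.RA.dim_dec (d := 2) le_rfl hp hα)
    rintro c ⟨h1, h2⟩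
    exact ⟨h1, decays_iff.1 h2⟩
  · apply le_antisymm _ bot_le
    refine (dimH_mono ?_).trans (Pool.Agent.Helper32.RA.dim_dec_inf (d := 2) le_rfl).le
    rintro c ⟨h1, α, hα, h2⟩
    exact ⟨h1, α, hα, decays_iff.1 h2⟩

end Pool.Agent.Results.MP_b511e9_an.SubpowerAreas
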